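import Pool.Agent.R467.TrigQuad

/-!
# Minimal node counts of Chebyshev-type trigonometric quadratures are not local (MP_c62d6e_an)
-/

set_option autoImplicit false

namespace Pool.Agent.Results.MP_c62d6e_an.NotLocal

open MeasureTheory Set Filter Topology Real Pool.Agent.R467.TrigQuad

/-! ### The lower bound -/

/-- the first weight, living on the arc `sin x > 3 / 4` -/
noncomputable def W₁ : ℝ → ℝ := Wt 1 (-(π / 2))
/-- the second weight, living on the arc `sin x < - 3 / 4` -/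
noncomputable def W₂ : ℝ → ℝ := Wt √2 (π / 2)
/-- the combined weight -/
noncomputable def W (x : ℝ) : ℝ := W₁ x + W₂ x

lemma W₁_zero {x : ℝ} (h : sin x ≤ 3 / 4) : W₁ x = 0 := by
  rw [W₁, Wt, g_zero, mul_zero]
  intro h1
  have h2 : cos (x + -(π / 2)) = 1 - 2 * sin ((x + -(π / 2)) / 2) ^ 2 := by
    have := cos_two_mul ((x + -(π / 2)) / 2)
    rw [mul_div_cancel₀ _ (two_ne_zero)] at this
    rw [this, cos_sq']; ring
  have h3 : cos (x + -(π / 2)) = sin x := by
    rw [← sub_eq_add_neg, cos_sub_pi_div_two]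
  linarith

lemma W₂_zero {x : ℝ} (h : -(3 / 4) ≤ sin x) : W₂ x = 0 := by
  rw [W₂, Wt, g_zero, mul_zero]
  intro h1
  have h2 : cos (x + π / 2) = 1 - 2 * sin ((x + π / 2) / 2) ^ 2 := by
    have := cos_two_mul ((x + π / 2) / 2)
    rw [mul_div_cancel₀ _ (two_ne_zero)] at this
    rw [this, cos_sq']; ring
  have h3 : cos (x + π / 2) = - sin x := cos_add_pi_div_two x
  linarith

lemma W₁_isWeight : IsWeight W₁ := Wt_isWeight one_pos _
lemma W₂_isWeight : IsWeight W₂ := Wt_isWeight (by positivity) _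
lemma W₁_total : ∫ x in (-π)..π, W₁ x = π := by rw [W₁, Wt_total, one_mul]
lemma W₂_total : ∫ x in (-π)..π, W₂ x = √2 * π := Wt_total _ _

lemma W_total : ∫ x in (-π)..π, W x = (1 + √2) * π := by
  unfold W
  rw [intervalIntegral.integral_add W₁_isWeight.integrable W₂_isWeight.integrable, W₁_total,
    W₂_total]
  ring

lemma W_isWeight : IsWeight W where
  nonneg x := add_nonneg (W₁_isWeight.nonneg x) (W₂_isWeight.nonneg x)
  periodic := W₁_isWeight.periodic.add W₂_isWeight.periodic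
  measurable := W₁_isWeight.measurable.add W₂_isWeight.measurable
  integrable := W₁_isWeight.integrable.add W₂_isWeight.integrable
  pos := by rw [W_total]; positivity

lemma W_local (x : ℝ) : W =ᶠ[𝓝 x] W₁ ∨ W =ᶠ[𝓝 x] W₂ := by
  rcases lt_or_ge (-(3 / 4)) (sin x) with h | h
  · left
    have h1 : ∀ᶠ y in 𝓝 x, -(3 / 4) < sin y :=
      continuous_sin.continuousAt.eventually (lt_mem_nhds h)
    filter_upwards [h1] with y hy
    rw [W, W₂_zero hy.le, add_zero]
  · right
    have h1 : ∀ᶠ y in 𝓝 x, sin y < 3 / 4 :=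
      continuous_sin.continuousAt.eventually (gt_mem_nhds (by linarith))
    filter_upwards [h1] with y hy
    rw [W, W₁_zero hy.le, zero_add]

/-- the lower half of the binomial expansion of `(y + (1 - y)) ^ (2 m + 1)` -/
noncomputable def low (m : ℕ) (y : ℝ) : ℝ :=
  ∑ j ∈ Finset.range (m + 1), y ^ j * (1 - y) ^ (2 * m + 1 - j) * ((2 * m + 1).choose j : ℝ)

lemma low_add (m : ℕ) (y : ℝ) : low m y + low m (1 - y) = 1 := by
  have h1 := add_pow y (1 - y) (2 * m + 1)
  rw [show y + (1 - y) = 1 by ring, one_pow] at h1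
  rw [show 2 * m + 1 + 1 = (m + 1) + (m + 1) by ring, Finset.sum_range_add] at h1
  refine Eq.trans ?_ h1.symm
  unfold low
  congr 1
  rw [← Finset.sum_range_reflect (fun j => y ^ (m + 1 + j) * (1 - y) ^ (2 * m + 1 - (m + 1 + j)) *
    (((2 * m + 1).choose (m + 1 + j) : ℕ) : ℝ)) (m + 1)]
  apply Finset.sum_congr rfl
  intro j hj
  have hj' := Finset.mem_range.mp hj
  have e1 : m + 1 + (m + 1 - 1 - j) = 2 * m + 1 - j := by omega
  have e2 : 2 * m + 1 - (2 * m + 1 - j) = j := by omega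
  rw [e1, e2, show 1 - (1 - y) = y by ring, Nat.choose_symm (by omega)]
  ring

lemma low_nonneg (m : ℕ) {y : ℝ} (h0 : 0 ≤ y) (h1 : y ≤ 1) : 0 ≤ low m y := by
  apply Finset.sum_nonneg
  intro j _
  have : 0 ≤ 1 - y := by linarith
  positivity

lemma low_le (m : ℕ) {y : ℝ} (h0 : 3 / 4 ≤ y) (h1 : y ≤ 1) : low m y ≤ (3 / 4) ^ m := by
  have hy : 0 ≤ 1 - y := by linarith
  have hy0 : 0 ≤ y := by linarith
  have h2 : low m y ≤ ∑ j ∈ Finset.range (m + 1), (y * (1 - y)) ^ m * ((2 * m + 1).choose j : ℝ) := by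
    apply Finset.sum_le_sum
    intro j hj
    have hj' := Finset.mem_range.mp hj
    apply mul_le_mul_of_nonneg_right _ (by positivity)
    have e1 : 2 * m + 1 - j = m + (m - j) + 1 := by omega
    have e2 : (y * (1 - y)) ^ m = y ^ j * ((1 - y) ^ m * y ^ (m - j)) := by
      rw [mul_pow, show y ^ m = y ^ j * y ^ (m - j) by rw [← pow_add]; congr 1; omega]
      ring
    rw [e1, e2, pow_add, pow_add, pow_one]
    apply mul_le_mul_of_nonneg_left _ (by positivity)
    calc (1 - y) ^ m * (1 - y) ^ (m - j) * (1 - y) ≤ (1 - y) ^ m * (1 - y) ^ (m - j) * 1 := by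
          apply mul_le_mul_of_nonneg_left (by linarith) (by positivity)
      _ = (1 - y) ^ m * (1 - y) ^ (m - j) := mul_one _
      _ ≤ (1 - y) ^ m * y ^ (m - j) := by
          apply mul_le_mul_of_nonneg_left _ (by positivity)
          exact pow_le_pow_left₀ hy (by linarith) _
  rw [← Finset.mul_sum, ← Nat.cast_sum, Nat.sum_range_choose_halfway] at h2
  refine h2.trans ?_
  push_cast
  rw [← mul_pow]
  apply pow_le_pow_left₀ (by positivity)
  nlinarith

/-- the localising trigonometric polynomial -/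
noncomputable def B (m : ℕ) (x : ℝ) : ℝ := low m (1 / 2 - 1 / 2 * sin x)

lemma sin_mem_one : (fun x : ℝ => sin x) ∈ TrigPoly 1 := by
  have := sin_mem (n := 1) (k := 1) le_rfl
  simpa using this

lemma u_mem : (fun x : ℝ => 1 / 2 - 1 / 2 * sin x) ∈ TrigPoly 1 := by
  have h := Submodule.sub_mem _ (const_mem 1 (1 / 2)) (Submodule.smul_mem _ (1 / 2 : ℝ) sin_mem_one)
  have e : (fun x : ℝ => 1 / 2 - 1 / 2 * sin x) =
      (fun _ : ℝ => (1 / 2 : ℝ)) - (1 / 2 : ℝ) • fun x : ℝ => sin x := by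
    funext x
    simp only [Pi.sub_apply, Pi.smul_apply, smul_eq_mul]
  rw [e]
  exact h

lemma v_mem : (fun x : ℝ => 1 - (1 / 2 - 1 / 2 * sin x)) ∈ TrigPoly 1 := by
  have h := Submodule.sub_mem _ (const_mem 1 1) u_mem
  have e : (fun x : ℝ => 1 - (1 / 2 - 1 / 2 * sin x)) =
      (fun _ : ℝ => (1 : ℝ)) - fun x : ℝ => 1 / 2 - 1 / 2 * sin x := by
    funext x
    simp only [Pi.sub_apply]
  rw [e]
  exact h

lemma term_mem {u v : ℝ → ℝ} (hu : u ∈ TrigPoly 1) (hv : v ∈ TrigPoly 1) {m j : ℕ} (hj : j ≤ m) :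
    u ^ j * v ^ (2 * m + 1 - j) ∈ TrigPoly (2 * m + 1) := by
  have h1 : u ^ j ∈ TrigPoly (j * 1) := pow_mem' hu j
  have h2 : v ^ (2 * m + 1 - j) ∈ TrigPoly ((2 * m + 1 - j) * 1) := pow_mem' hv _
  rw [mul_one] at h1 h2
  have h := Pool.Agent.R467.TrigQuad.mul_mem h1 h2
  have e3 : j + (2 * m + 1 - j) = 2 * m + 1 := by omega
  rwa [e3] at h

lemma sum_mem' {u v : ℝ → ℝ} (hu : u ∈ TrigPoly 1) (hv : v ∈ TrigPoly 1) (m : ℕ) (c : ℕ → ℝ) :
    (fun x => ∑ j ∈ Finset.range (m + 1), u x ^ j * v x ^ (2 * m + 1 - j) * c j) ∈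
      TrigPoly (2 * m + 1) := by
  have e : (fun x => ∑ j ∈ Finset.range (m + 1), u x ^ j * v x ^ (2 * m + 1 - j) * c j) =
      ∑ j ∈ Finset.range (m + 1), c j • (u ^ j * v ^ (2 * m + 1 - j)) := by
    funext x
    rw [Finset.sum_apply]
    apply Finset.sum_congr rfl
    intro j _
    simp only [Pi.smul_apply, Pi.mul_apply, Pi.pow_apply, smul_eq_mul]
    ring
  rw [e]
  apply Submodule.sum_mem
  intro j hj
  have hj' := Finset.mem_range.mp hj
  exact Submodule.smul_mem _ _ (term_mem hu hv (by omega))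

lemma B_mem (m : ℕ) : B m ∈ TrigPoly (2 * m + 1) :=
  sum_mem' u_mem v_mem m (fun j => ((2 * m + 1).choose j : ℝ))

lemma B_bounds (m : ℕ) (x : ℝ) : 0 ≤ B m x ∧ B m x ≤ 1 := by
  have h1 := neg_one_le_sin x
  have h2 := sin_le_one x
  have h3 := low_add m (1 / 2 - 1 / 2 * sin x)
  have h4 := low_nonneg m (y := 1 / 2 - 1 / 2 * sin x) (by linarith) (by linarith)
  have h5 := low_nonneg m (y := 1 - (1 / 2 - 1 / 2 * sin x)) (by linarith) (by linarith)
  exact ⟨h4, by unfold B; linarith⟩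

lemma B_neg (m : ℕ) {x : ℝ} (h : sin x ≤ -(1 / 2)) : B m x ≤ (3 / 4) ^ m :=
  low_le m (by linarith) (by linarith [neg_one_le_sin x])

lemma B_pos (m : ℕ) {x : ℝ} (h : 1 / 2 ≤ sin x) : 1 - (3 / 4) ^ m ≤ B m x := by
  have h3 := low_add m (1 / 2 - 1 / 2 * sin x)
  have h4 := low_le m (y := 1 - (1 / 2 - 1 / 2 * sin x)) (by linarith)
    (by linarith [sin_le_one x])
  unfold B; linarith

lemma mulW_integrable {n : ℕ} {p : ℝ → ℝ} (hp : p ∈ TrigPoly n) {V : ℝ → ℝ} (hV : IsWeight V) :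
    IntervalIntegrable (fun x => p x * V x) volume (-π) π :=
  hV.integrable.continuousOn_mul (continuous_of_mem hp).continuousOn

lemma cos_sq_mem (m : ℕ) : (fun x : ℝ => (cos x ^ 2) ^ m) ∈ TrigPoly (2 * m) := by
  have h1 := cos_mem (n := 1) (k := 1) le_rfl
  have h2 := pow_mem' (pow_mem' h1 2) m
  have e3 : m * (2 * 1) = 2 * m := by ring
  rw [e3] at h2
  convert h2 using 1
  funext x
  simp

/-- the key estimate -/
lemma key {m N : ℕ} (h : HasQuad W (2 * m + 1) N) : (4 / 3 : ℝ) ^ m ≤ 8 * (N : ℝ) ^ 2 := by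
  classical
  obtain ⟨θ, w, hw⟩ := h
  have hs2 : (0 : ℝ) < √2 := by positivity
  have hs2' : √2 ^ 2 = (2 : ℝ) := sq_sqrt (by norm_num)
  have hs2'' : √2 < (2 : ℝ) := by
    rw [sqrt_lt' (by norm_num)]; norm_num
  have hC : (0 : ℝ) < (1 + √2) * π := by positivity
  -- total mass
  have hT : w * N = (1 + √2) * π := by
    have := hw _ (one_mem _)
    simp only [Pi.one_apply, one_mul, Finset.sum_const, Finset.card_univ, Fintype.card_fin,
      nsmul_eq_mul, mul_one] at this
    rw [← this, W_total]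
  have hN : (0 : ℝ) < N := by
    rcases Nat.eq_zero_or_pos N with h0 | h0
    · rw [h0] at hT; simp at hT; linarith
    · exact_mod_cast h0
  have hN1 : (1 : ℝ) ≤ N := by
    have : 0 < N := by exact_mod_cast hN
    exact_mod_cast this
  have hwpos : 0 < w := by
    by_contra hc
    push Not at hc
    have : w * N ≤ 0 := mul_nonpos_of_nonpos_of_nonneg hc hN.le
    linarith
  by_contra hcon
  push Not at hcon
  -- no nodes in the gap
  have hgap : ∀ i, cos (θ i) ^ 2 < 3 / 4 := by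
    intro i
    by_contra hc
    push Not at hc
    have h1 := hw _ (mono (show 2 * m ≤ 2 * m + 1 by omega) (cos_sq_mem m))
    have h2 : ∫ x in (-π)..π, (cos x ^ 2) ^ m * W x ≤ ∫ x in (-π)..π, (7 / 16 : ℝ) ^ m * W x := by
      apply intervalIntegral.integral_mono_on (by linarith [pi_pos])
        (mulW_integrable (cos_sq_mem m) W_isWeight) (W_isWeight.integrable.const_mul _)
      intro x _
      by_cases hx : cos x ^ 2 ≤ 7 / 16
      · exact mul_le_mul_of_nonneg_right (pow_le_pow_left₀ (sq_nonneg _) hx _)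
          (W_isWeight.nonneg x)
      · push Not at hx
        have h3 : sin x ^ 2 < 9 / 16 := by
          have := sin_sq_add_cos_sq x
          linarith
        have h4 : W x = 0 := by
          rw [W, W₁_zero (by nlinarith), W₂_zero (by nlinarith), add_zero]
        rw [h4, mul_zero, mul_zero]
    rw [intervalIntegral.integral_const_mul, W_total, ← hT, h1] at h2
    have h5 : (3 / 4 : ℝ) ^ m ≤ ∑ i, (cos (θ i) ^ 2) ^ m := by
      refine le_trans (pow_le_pow_left₀ (by norm_num) hc m) ?_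
      exact Finset.single_le_sum (f := fun i => (cos (θ i) ^ 2) ^ m)
        (fun i _ => by positivity) (Finset.mem_univ i)
    have h6 : (3 / 4 : ℝ) ^ m ≤ (7 / 16) ^ m * N := by
      have h7 : w * (3 / 4 : ℝ) ^ m ≤ w * ((7 / 16) ^ m * N) := by
        calc w * (3 / 4 : ℝ) ^ m ≤ w * ∑ i, (cos (θ i) ^ 2) ^ m :=
              mul_le_mul_of_nonneg_left h5 hwpos.le
          _ ≤ (7 / 16) ^ m * (w * N) := h2
          _ = w * ((7 / 16) ^ m * N) := by ring
      exact le_of_mul_le_mul_left h7 hwpos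
    have h8 : (N : ℝ) < (4 / 3) ^ m := by nlinarith
    have h9 : (7 / 16 : ℝ) ^ m * (4 / 3) ^ m ≤ (3 / 4) ^ m := by
      rw [← mul_pow]
      exact pow_le_pow_left₀ (by norm_num) (by norm_num) m
    have h10 : (0 : ℝ) < (7 / 16) ^ m := by positivity
    nlinarith
  -- localisation
  set ε : ℝ := (3 / 4) ^ m with hε
  have hε0 : 0 < ε := by positivity
  have hB := hw _ (B_mem m)
  have hB1 := mulW_integrable (B_mem m) W₁_isWeight
  have hB2 := mulW_integrable (B_mem m) W₂_isWeight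
  have hsplit : ∫ x in (-π)..π, B m x * W x =
      (∫ x in (-π)..π, B m x * W₁ x) + ∫ x in (-π)..π, B m x * W₂ x := by
    rw [← intervalIntegral.integral_add hB1 hB2]
    congr 1
    funext x
    rw [W]; ring
  have i1 : ∫ x in (-π)..π, B m x * W₁ x ≤ π := by
    refine le_trans ?_ W₁_total.le
    apply intervalIntegral.integral_mono_on (by linarith [pi_pos]) hB1 W₁_isWeight.integrable
    intro x _
    have := W₁_isWeight.nonneg x
    have := (B_bounds m x).2
    nlinarith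
  have i2 : (1 - ε) * π ≤ ∫ x in (-π)..π, B m x * W₁ x := by
    have e1 : ∫ x in (-π)..π, (1 - ε) * W₁ x = (1 - ε) * π := by
      rw [intervalIntegral.integral_const_mul, W₁_total]
    refine le_trans e1.ge ?_
    apply intervalIntegral.integral_mono_on (by linarith [pi_pos])
      (W₁_isWeight.integrable.const_mul _) hB1
    intro x _
    rcases le_or_gt (sin x) (3 / 4) with hx | hx
    · rw [W₁_zero hx, mul_zero, mul_zero]
    · exact mul_le_mul_of_nonneg_right (B_pos m (by linarith)) (W₁_isWeight.nonneg x)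
  have i3 : 0 ≤ ∫ x in (-π)..π, B m x * W₂ x := by
    apply intervalIntegral.integral_nonneg (by linarith [pi_pos])
    intro x _
    exact mul_nonneg (B_bounds m x).1 (W₂_isWeight.nonneg x)
  have i4 : ∫ x in (-π)..π, B m x * W₂ x ≤ ε * (√2 * π) := by
    have e1 : ∫ x in (-π)..π, ε * W₂ x = ε * (√2 * π) := by
      rw [intervalIntegral.integral_const_mul, W₂_total]
    refine le_trans ?_ e1.le
    apply intervalIntegral.integral_mono_on (by linarith [pi_pos]) hB2
      (W₂_isWeight.integrable.const_mul _)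
    intro x _
    rcases le_or_gt (-(3 / 4)) (sin x) with hx | hx
    · rw [W₂_zero hx, mul_zero, mul_zero]
    · exact mul_le_mul_of_nonneg_right (B_neg m (by linarith)) (W₂_isWeight.nonneg x)
  -- counting
  set S := Finset.univ.filter (fun i : Fin N => 0 < sin (θ i)) with hS
  have hcount : |(∑ i, B m (θ i)) - S.card| ≤ ε * N := by
    have e1 : (S.card : ℝ) = ∑ i, if 0 < sin (θ i) then (1 : ℝ) else 0 := by
      rw [hS, Finset.sum_boole]
    rw [e1, ← Finset.sum_sub_distrib]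
    refine (Finset.abs_sum_le_sum_abs _ _).trans ?_
    have e2 : ∀ i ∈ (Finset.univ : Finset (Fin N)),
        |B m (θ i) - if 0 < sin (θ i) then (1 : ℝ) else 0| ≤ ε := by
      intro i _
      have h1 := hgap i
      have h2 := sin_sq_add_cos_sq (θ i)
      have h3 : 1 / 4 < sin (θ i) ^ 2 := by linarith
      have h4 := B_bounds m (θ i)
      split_ifs with h5
      · have h6 : 1 / 2 ≤ sin (θ i) := by nlinarith
        have h7 := B_pos m h6
        rw [abs_le]
        constructor <;> linarith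
      · have h6 : sin (θ i) ≤ -(1 / 2) := by nlinarith
        have h7 := B_neg m h6
        rw [abs_le]
        constructor <;> linarith
    refine (Finset.sum_le_sum e2).trans ?_
    rw [Finset.sum_const, Finset.card_univ, Fintype.card_fin, nsmul_eq_mul, mul_comm]
  have hcard : (S.card : ℝ) ≤ N := by
    have : S.card ≤ N := by
      have := Finset.card_le_univ S
      rwa [Fintype.card_fin] at this
    exact_mod_cast this
  -- compare
  have hmain : |w * S.card - π| ≤ 2 * ε * (w * N) := by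
    rw [hsplit] at hB
    have h1 : |w * (∑ i, B m (θ i)) - w * S.card| ≤ w * (ε * N) := by
      rw [← mul_sub, abs_mul, abs_of_pos hwpos]
      exact mul_le_mul_of_nonneg_left hcount hwpos.le
    have h2 : |w * (∑ i, B m (θ i)) - π| ≤ ε * (w * N) := by
      rw [← hB, abs_le]
      rw [hT]
      constructor <;> nlinarith [pi_pos]
    rw [abs_le] at h1 h2 ⊢
    constructor <;> nlinarith
  have hfin : |((S.card + N : ℕ) : ℝ) - √2 * N| ≤ 2 * ε * N := by
    have h1 : (1 + √2) * π * (((S.card + N : ℕ) : ℝ) - √2 * N) = N * (w * S.card - π) := by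
      push_cast
      have h2 : (N : ℝ) * (w * S.card - π) = (w * N) * S.card - π * N := by ring
      rw [h2, hT]
      have h3 : √2 * √2 = (2 : ℝ) := by rw [← sq]; exact hs2'
      linear_combination (-(π * N)) * h3
    have h4 : (1 + √2) * π * |((S.card + N : ℕ) : ℝ) - √2 * N| ≤ (1 + √2) * π * (2 * ε * N) := by
      calc (1 + √2) * π * |((S.card + N : ℕ) : ℝ) - √2 * N|
          = |(1 + √2) * π * (((S.card + N : ℕ) : ℝ) - √2 * N)| := by
            rw [abs_mul ((1 + √2) * π), abs_of_pos hC]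
        _ = N * |w * S.card - π| := by rw [h1, abs_mul, abs_of_pos hN]
        _ ≤ N * (2 * ε * (w * N)) := mul_le_mul_of_nonneg_left hmain hN.le
        _ = (1 + √2) * π * (2 * ε * N) := by rw [hT]; ring
    exact le_of_mul_le_mul_left h4 hC
  set a : ℕ := S.card + N with ha
  have hane : ((a : ℤ) ^ 2 - 2 * (N : ℤ) ^ 2) ≠ 0 := by
    intro h0
    have h1 : (a : ℝ) ^ 2 = (√2 * N) ^ 2 := by
      rw [mul_pow, hs2']
      have : ((a : ℤ) : ℝ) ^ 2 - 2 * ((N : ℤ) : ℝ) ^ 2 = 0 := by exact_mod_cast h0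
      push_cast at this
      linarith
    have h2 : (a : ℝ) = √2 * N := by
      rwa [sq_eq_sq₀ (by positivity) (by positivity)] at h1
    have h3 : √2 = ((a : ℚ) / (N : ℚ) : ℚ) := by
      push_cast
      rw [h2]
      field_simp
    exact irrational_sqrt_two ⟨_, h3.symm⟩
  have h1 : (1 : ℝ) ≤ |(a : ℝ) ^ 2 - 2 * (N : ℝ) ^ 2| := by
    have := Int.one_le_abs hane
    exact_mod_cast this
  have h2 : |(a : ℝ) ^ 2 - 2 * (N : ℝ) ^ 2| = |(a : ℝ) - √2 * N| * (a + √2 * N) := by
    have h3 : (0 : ℝ) ≤ a + √2 * N := by positivity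
    have h4 : (a : ℝ) ^ 2 - 2 * (N : ℝ) ^ 2 = (a - √2 * N) * (a + √2 * N) := by
      linear_combination (N : ℝ) ^ 2 * hs2'
    rw [h4, abs_mul, abs_of_nonneg h3]
  have h3 : (a : ℝ) ≤ 2 * N := by
    rw [ha]; push_cast; linarith
  have h4 : (a : ℝ) + √2 * N ≤ 4 * N := by nlinarith
  have h5 : (1 : ℝ) ≤ 2 * ε * N * (4 * N) := by
    rw [h2] at h1
    refine h1.trans ?_
    exact mul_le_mul hfin h4 (by positivity) (by positivity)
  have h6 : ε * (4 / 3) ^ m = 1 := by
    rw [hε, ← mul_pow]; norm_num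
  have h7 : (0 : ℝ) < (4 / 3) ^ m := by positivity
  have h8 : (4 / 3 : ℝ) ^ m ≤ 8 * (N : ℝ) ^ 2 := by
    calc (4 / 3 : ℝ) ^ m = 1 * (4 / 3) ^ m := (one_mul _).symm
      _ ≤ (2 * ε * N * (4 * N)) * (4 / 3) ^ m := mul_le_mul_of_nonneg_right h5 h7.le
      _ = 8 * (N : ℝ) ^ 2 * (ε * (4 / 3) ^ m) := by ring
      _ = 8 * (N : ℝ) ^ 2 := by rw [h6, mul_one]
  linarith

lemma minNodes_le {V : ℝ → ℝ} {n N : ℕ} (h : HasQuad V n N) : minNodes V n ≤ N :=
  iInf₂_le N h

lemma le_minNodes {V : ℝ → ℝ} {n : ℕ} {K : ℕ∞} (h : ∀ N : ℕ, HasQuad V n N → K ≤ N) :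
    K ≤ minNodes V n := le_iInf₂ h

/-- There are `2π`-periodic weight functions `W₁`, `W₂`, `W` such that every real `x` has a
neighbourhood on which `W` agrees with `W₁` or with `W₂`, and such that `W₁` and `W₂` have
Chebyshev-type trigonometric quadratures of degree `n` with `n + 1` nodes for every `n`, but every
such quadrature of degree `2 m + 1` for `W` has at least `((4 / 3) ^ m / 8) ^ (1 / 2)` nodes. In
particular the ratio of the minimal numbers of nodes is unbounded. -/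
theorem result : ∃ W₁ W₂ W : ℝ → ℝ, IsWeight W₁ ∧ IsWeight W₂ ∧ IsWeight W ∧
    (∀ x, W =ᶠ[𝓝 x] W₁ ∨ W =ᶠ[𝓝 x] W₂) ∧
    (∀ n : ℕ, minNodes W₁ n ≤ n + 1 ∧ minNodes W₂ n ≤ n + 1) ∧
    (∀ m N : ℕ, HasQuad W (2 * m + 1) N → (4 / 3 : ℝ) ^ m ≤ 8 * (N : ℝ) ^ 2) ∧
    (∀ M : ℕ, ∃ n : ℕ, 1 ≤ n ∧ (M : ℕ∞) * max (minNodes W₁ n) (minNodes W₂ n) < minNodes W n) := by
  have hq : ∀ n : ℕ, minNodes W₁ n ≤ n + 1 ∧ minNodes W₂ n ≤ n + 1 := by
    intro n
    have h1 := minNodes_le (Wt_hasQuad 1 (-(π / 2)) n)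
    have h2 := minNodes_le (Wt_hasQuad √2 (π / 2) n)
    push_cast at h1 h2
    exact ⟨h1, h2⟩
  refine ⟨W₁, W₂, W, W₁_isWeight, W₂_isWeight, W_isWeight, W_local, hq, fun m N h => key h, ?_⟩
  intro M
  -- choose m with 8 (M (2 m + 2) + 1) ^ 2 < (4 / 3) ^ m
  have hlim : Tendsto (fun m : ℕ => (m : ℝ) ^ 2 / (4 / 3) ^ m) atTop (𝓝 0) :=
    tendsto_pow_const_div_const_pow_of_one_lt 2 (by norm_num)
  have hpos : (0 : ℝ) < 1 / (8 * (4 * (M : ℝ) + 1) ^ 2) := by positivity
  obtain ⟨m, hm1, hm2⟩ := ((hlim.eventually (gt_mem_nhds hpos)).and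
    (eventually_ge_atTop 1)).exists
  refine ⟨2 * m + 1, by omega, ?_⟩
  have hle : max (minNodes W₁ (2 * m + 1)) (minNodes W₂ (2 * m + 1)) ≤ ((2 * m + 2 : ℕ) : ℕ∞) := by
    have := hq (2 * m + 1)
    push_cast at this ⊢
    refine max_le (this.1.trans (le_of_eq ?_)) (this.2.trans (le_of_eq ?_)) <;> ring
  have h1 : (M : ℕ∞) * max (minNodes W₁ (2 * m + 1)) (minNodes W₂ (2 * m + 1)) ≤
      ((M * (2 * m + 2) : ℕ) : ℕ∞) := by
    rw [Nat.cast_mul]
    gcongr
  refine lt_of_le_of_lt h1 ?_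
  have h2 : ((M * (2 * m + 2) + 1 : ℕ) : ℕ∞) ≤ minNodes W (2 * m + 1) := by
    apply le_minNodes
    intro N hN
    have hk := key hN
    rw [Nat.cast_le]
    by_contra hc
    push Not at hc
    have hc' : (N : ℝ) ≤ M * (2 * m + 2) := by
      have : N ≤ M * (2 * m + 2) := by omega
      exact_mod_cast this
    have hm3 : (1 : ℝ) ≤ m := by exact_mod_cast hm2
    have h5 : (N : ℝ) ≤ (4 * M + 1) * m := by nlinarith [(Nat.cast_nonneg M : (0 : ℝ) ≤ M)]
    have h6 : (N : ℝ) ^ 2 ≤ (4 * M + 1) ^ 2 * m ^ 2 := by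
      rw [← mul_pow]
      exact pow_le_pow_left₀ (by positivity) h5 2
    have h7 : (0 : ℝ) < (4 / 3) ^ m := by positivity
    rw [div_lt_div_iff₀ h7 (by positivity)] at hm1
    nlinarith
  refine lt_of_lt_of_le ?_ h2
  exact_mod_cast Nat.lt_succ_self _

end Pool.Agent.Results.MP_c62d6e_an.NotLocal
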